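import Mathlib

namespace Pool.Agent.Results.MP_0a7d83_co.All
open Finset

/-- Facets: inclusion-maximal faces. -/
def IsFacet {V : Type} (Δ : Set (Finset V)) (F : Finset V) : Prop :=
  F ∈ Δ ∧ ∀ G ∈ Δ, F ⊆ G → G = F

/-- The NF-complex: subsets of `V` containing no facet of `Δ`. -/
def nf {V : Type} (Δ : Set (Finset V)) : Set (Finset V) :=
  {F | ∀ G, IsFacet Δ G → ¬ G ⊆ F}

/-- Isomorphism of complexes on the vertex set `V`. -/
def Iso {V : Type} (Δ Γ : Set (Finset V)) : Prop :=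
  ∃ π : V ≃ V, ∀ F : Finset V, F ∈ Δ ↔ F.map π.toEmbedding ∈ Γ

/-- Edges of the dumbbell graph: all pairs in `A`, all pairs in `B`, and the bridge `x₁y₁`. -/
def Adj {n m : ℕ} : Fin n ⊕ Fin m → Fin n ⊕ Fin m → Prop
  | .inl i, .inl j => i ≠ j
  | .inr i, .inr j => i ≠ j
  | .inl i, .inr j => i.val = 0 ∧ j.val = 0
  | .inr j, .inl i => i.val = 0 ∧ j.val = 0

/-- The dumbbell graph as a 1-dimensional complex: all subsets of its edges. -/
def dumbbell (n m : ℕ) : Set (Finset (Fin n ⊕ Fin m)) :=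
  {F | ∃ u v, Adj u v ∧ F ⊆ {u, v}}

abbrev W (p r : ℕ) := Fin (p + 1) ⊕ Fin (r + 1)

def c {p r : ℕ} : W p r → ℕ
  | .inl i => if i.val = 0 then 0 else 1
  | .inr j => if j.val = 0 then 2 else 3

def cnt {p r : ℕ} (F : Finset (W p r)) (i : ℕ) : ℕ := (F.filter (fun v => c v = i)).card

lemma hc {p r : ℕ} (v : W p r) : c v = 0 ∨ c v = 1 ∨ c v = 2 ∨ c v = 3 := by
  rcases v with i | j <;> simp only [c] <;> split_ifs <;> simp

lemma cnt_insert {p r : ℕ} {F : Finset (W p r)} {v : W p r} (hv : v ∉ F) (i : ℕ) :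
    cnt (insert v F) i = cnt F i + if c v = i then 1 else 0 := by
  unfold cnt
  rw [filter_insert]
  split_ifs with h
  · rw [card_insert_of_notMem (fun h' => hv (mem_filter.1 h').1)]
  · rfl

lemma cnt_erase {p r : ℕ} {F : Finset (W p r)} {v : W p r} (hv : v ∈ F) (i : ℕ) :
    cnt F i = cnt (F.erase v) i + if c v = i then 1 else 0 := by
  rw [← cnt_insert (notMem_erase v F), insert_erase hv]

lemma cnt_mono {p r : ℕ} {F G : Finset (W p r)} (h : F ⊆ G) (i : ℕ) : cnt F i ≤ cnt G i :=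
  card_le_card (filter_subset_filter _ h)

lemma cnt_univ (p r : ℕ) : cnt (univ : Finset (W p r)) 0 = 1 ∧ cnt (univ : Finset (W p r)) 1 = p ∧
    cnt (univ : Finset (W p r)) 2 = 1 ∧ cnt (univ : Finset (W p r)) 3 = r := by
  unfold cnt
  simp only [card_filter, Fintype.sum_sum_type, Fin.sum_univ_succ, c]
  simp

lemma cnt_le {p r : ℕ} (F : Finset (W p r)) :
    cnt F 0 ≤ 1 ∧ cnt F 1 ≤ p ∧ cnt F 2 ≤ 1 ∧ cnt F 3 ≤ r := by
  obtain ⟨h0, h1, h2, h3⟩ := cnt_univ p r
  have h := fun i => cnt_mono (subset_univ F) i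
  have a0 := h 0
  have a1 := h 1
  have a2 := h 2
  have a3 := h 3
  omega

lemma ex_out {p r : ℕ} {F : Finset (W p r)} {i : ℕ} (h : cnt F i < cnt (univ : Finset (W p r)) i) :
    ∃ v, v ∉ F ∧ c v = i := by
  obtain ⟨v, hv, hv'⟩ := exists_mem_notMem_of_card_lt_card h
  exact ⟨v, fun h' => hv' (mem_filter.2 ⟨h', (mem_filter.1 hv).2⟩), (mem_filter.1 hv).2⟩

lemma ex_in {p r : ℕ} {F : Finset (W p r)} {i : ℕ} (h : 0 < cnt F i) : ∃ v ∈ F, c v = i := by
  obtain ⟨v, hv⟩ := card_pos.1 h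
  exact ⟨v, (mem_filter.1 hv).1, (mem_filter.1 hv).2⟩

lemma card_eq {p r : ℕ} (F : Finset (W p r)) : F.card = cnt F 0 + cnt F 1 + cnt F 2 + cnt F 3 := by
  induction F using Finset.induction_on with
  | empty => simp [cnt]
  | insert v F hv ih =>
    rw [card_insert_of_notMem hv, cnt_insert hv, cnt_insert hv, cnt_insert hv, cnt_insert hv, ih]
    rcases hc v with h | h | h | h <;> simp [h] <;> omega

abbrev Pr := ℕ → ℕ → ℕ → ℕ → Prop

def S (p r : ℕ) (P : Pr) : Set (Finset (W p r)) := {F | P (cnt F 0) (cnt F 1) (cnt F 2) (cnt F 3)}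

def up (p r : ℕ) (P : Pr) : Pr := fun e a h b =>
  (e < 1 → ¬ P (e + 1) a h b) ∧ (a < p → ¬ P e (a + 1) h b) ∧ (h < 1 → ¬ P e a (h + 1) b) ∧
    (b < r → ¬ P e a h (b + 1))

def dn (Q : Pr) : Pr := fun e a h b =>
  (0 < e → Q (e - 1) a h b) ∧ (0 < a → Q e (a - 1) h b) ∧ (0 < h → Q e a (h - 1) b) ∧
    (0 < b → Q e a h (b - 1))

lemma ins_iff {p r : ℕ} (P : Pr) (F : Finset (W p r)) :
    (∀ v, v ∉ F → insert v F ∉ S p r P) ↔ F ∈ S p r (up p r P) := by
  obtain ⟨h0, h1, h2, h3⟩ := cnt_univ p r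
  constructor
  · intro H
    refine ⟨fun h => ?_, fun h => ?_, fun h => ?_, fun h => ?_⟩
    · obtain ⟨v, hv, e⟩ := ex_out (F := F) (i := 0) (by omega)
      simpa [S, cnt_insert hv, e] using H v hv
    · obtain ⟨v, hv, e⟩ := ex_out (F := F) (i := 1) (by omega)
      simpa [S, cnt_insert hv, e] using H v hv
    · obtain ⟨v, hv, e⟩ := ex_out (F := F) (i := 2) (by omega)
      simpa [S, cnt_insert hv, e] using H v hv
    · obtain ⟨v, hv, e⟩ := ex_out (F := F) (i := 3) (by omega)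
      simpa [S, cnt_insert hv, e] using H v hv
  · rintro ⟨a0, a1, a2, a3⟩ v hv
    have hb := cnt_le (insert v F)
    simp only [cnt_insert hv] at hb
    rcases hc v with e | e | e | e <;> simp [e] at hb
    · simpa [S, cnt_insert hv, e] using a0 (by omega)
    · simpa [S, cnt_insert hv, e] using a1 (by omega)
    · simpa [S, cnt_insert hv, e] using a2 (by omega)
    · simpa [S, cnt_insert hv, e] using a3 (by omega)

lemma er_cnt {p r : ℕ} {F : Finset (W p r)} {v : W p r} (hv : v ∈ F) (i : ℕ) :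
    cnt (F.erase v) i = cnt F i - if c v = i then 1 else 0 := by
  have := cnt_erase hv i
  omega

lemma er_iff {p r : ℕ} (Q : Pr) (F : Finset (W p r)) :
    (∀ v ∈ F, F.erase v ∈ S p r Q) ↔ F ∈ S p r (dn Q) := by
  constructor
  · intro H
    refine ⟨fun h => ?_, fun h => ?_, fun h => ?_, fun h => ?_⟩ <;>
    · obtain ⟨v, hv, e⟩ := ex_in h
      simpa [S, er_cnt hv, e] using H v hv
  · rintro ⟨a0, a1, a2, a3⟩ v hv
    have hb := cnt_erase hv (c v)
    rw [if_pos rfl] at hb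
    rcases hc v with e | e | e | e <;> rw [e] at hb
    · simpa [S, er_cnt hv, e] using a0 (by omega)
    · simpa [S, er_cnt hv, e] using a1 (by omega)
    · simpa [S, er_cnt hv, e] using a2 (by omega)
    · simpa [S, er_cnt hv, e] using a3 (by omega)

def Down (p r : ℕ) (P : Pr) : Prop := ∀ e a h b e' a' h' b', e ≤ 1 → a ≤ p → h ≤ 1 → b ≤ r →
  e' ≤ e → a' ≤ a → h' ≤ h → b' ≤ b → P e a h b → P e' a' h' b'

def Loc (p r : ℕ) (P Q : Pr) : Prop := ∀ e a h b, e ≤ 1 → a ≤ p → h ≤ 1 → b ≤ r →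
  ((P e a h b ∧ up p r P e a h b) ↔ (¬ Q e a h b ∧ dn Q e a h b))

lemma down_mem {p r : ℕ} {P : Pr} (hP : Down p r P) {F G : Finset (W p r)} (h : F ⊆ G)
    (hG : G ∈ S p r P) : F ∈ S p r P := by
  obtain ⟨a0, a1, a2, a3⟩ := cnt_le G
  exact hP _ _ _ _ _ _ _ _ a0 a1 a2 a3 (cnt_mono h 0) (cnt_mono h 1) (cnt_mono h 2)
    (cnt_mono h 3) hG

lemma key {p r : ℕ} {P Q : Pr} (hP : Down p r P) (hQ : Down p r Q) (hL : Loc p r P Q) :
    nf (S p r P) = S p r Q := by
  have fac : ∀ F : Finset (W p r), IsFacet (S p r P) F ↔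
      (F ∉ S p r Q ∧ ∀ v ∈ F, F.erase v ∈ S p r Q) := by
    intro F
    obtain ⟨a0, a1, a2, a3⟩ := cnt_le F
    rw [er_iff]
    have h1 : (F ∈ S p r P ∧ F ∈ S p r (up p r P)) ↔ (F ∉ S p r Q ∧ F ∈ S p r (dn Q)) :=
      hL _ _ _ _ a0 a1 a2 a3
    rw [← h1, ← ins_iff]
    constructor
    · rintro ⟨h, H⟩
      refine ⟨h, fun v hv h' => hv ?_⟩
      rw [← H _ h' (subset_insert v F)]
      exact mem_insert_self v F
    · rintro ⟨h, H⟩
      refine ⟨h, fun G hG hFG => ?_⟩
      by_contra hne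
      obtain ⟨v, hv, hv'⟩ := exists_of_ssubset (Finset.ssubset_iff_subset_ne.2 ⟨hFG, Ne.symm hne⟩)
      exact H v hv' (down_mem hP (insert_subset hv hFG) hG)
  have ex : ∀ F : Finset (W p r), F ∉ S p r Q → ∃ G, IsFacet (S p r P) G ∧ G ⊆ F := by
    intro F
    induction F using Finset.strongInduction with
    | H F ih =>
      intro hF
      by_cases h : ∀ v ∈ F, F.erase v ∈ S p r Q
      · exact ⟨F, (fac F).2 ⟨hF, h⟩, Subset.refl _⟩
      · push Not at h
        obtain ⟨v, hv, hv'⟩ := h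
        obtain ⟨G, hG, hG'⟩ := ih _ (erase_ssubset hv) hv'
        exact ⟨G, hG, hG'.trans (erase_subset v F)⟩
  ext F
  constructor
  · intro H
    by_contra hF
    obtain ⟨G, hG, hG'⟩ := ex F hF
    exact H G hG hG'
  · intro hF G hG hG'
    exact ((fac G).1 hG).1 (down_mem hQ hG' hF)

def D0 : Pr := fun e a h b => e + a + h + b ≤ 2 ∧ (e + a = 0 ∨ h + b = 0 ∨ (a = 0 ∧ b = 0))
def D1 : Pr := fun e a h b => e + a ≤ 1 ∧ h + b ≤ 1 ∧ e + h ≤ 1
def D2 : Pr := fun e a h b => e + a = 0 ∨ h + b = 0 ∨ (a = 0 ∧ b = 0)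
def D3 (p r : ℕ) : Pr := fun e a h b => e + a ≤ p ∧ h + b ≤ r ∧ e + h ≤ 1
def D4 (p r : ℕ) : Pr := fun e a h b => (a < p ∨ h + b < r) ∧ (b < r ∨ e + a < p)
def PP (p r j : ℕ) : Pr := fun e a h b => e + a + h + b ≤ j ∨
  (e + a ≤ p ∧ h + b ≤ r ∧ e + h ≤ 1 ∧
    (e + a + h + b ≤ j + 1 ∨ ((e + a = 0 ∨ h + b = 0) ∧ e + a + h + b ≤ j + 2))) ∨
  (e + a + h + b = j + 2 ∧ (e + a = 0 ∨ h + b = 0 ∨ (a = 0 ∧ b = 0)))

lemma l0 (p r : ℕ) (hp : 1 ≤ p) (hr : 1 ≤ r) : Loc p r D0 D1 := by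
  intro e a h b he ha hh hb
  simp only [D0, D1, up, dn]
  interval_cases e <;> interval_cases h <;> constructor <;> intro H <;> grind (splits := 60)

lemma l1 (p r : ℕ) (hp : 1 ≤ p) (hr : 1 ≤ r) : Loc p r D1 D2 := by
  intro e a h b he ha hh hb
  simp only [D1, D2, up, dn]
  interval_cases e <;> interval_cases h <;> constructor <;> intro H <;> grind (splits := 60)

lemma l2 (p r : ℕ) (hp : 1 ≤ p) (hr : 1 ≤ r) : Loc p r D2 (D3 p r) := by
  intro e a h b he ha hh hb
  simp only [D2, D3, up, dn]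
  interval_cases e <;> interval_cases h <;> constructor <;> intro H <;> grind (splits := 60)

lemma l3 (p r : ℕ) (hp : 1 ≤ p) (hr : 1 ≤ r) : Loc p r (D3 p r) (D4 p r) := by
  intro e a h b he ha hh hb
  simp only [D3, D4, up, dn]
  interval_cases e <;> interval_cases h <;> constructor <;> intro H <;> grind (splits := 60)

lemma l4 (p r j : ℕ) (hp : 1 ≤ p) (hr : 1 ≤ r) (h3 : 3 ≤ p + r) (hj : j + 1 ≤ p + r) (hj2 : p + r ≤ j + 1) :
    Loc p r (D4 p r) (PP p r j) := by
  intro e a h b he ha hh hb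
  simp only [PP, D4, up, dn]
  interval_cases e <;> interval_cases h <;> constructor <;> intro H <;> grind (splits := 60)

lemma dP (p r j : ℕ) (hp : 1 ≤ p) (hr : 1 ≤ r) : Down p r (PP p r j) := by
  intro e a h b e' a' h' b' _ _ _ _ _ _ _ _ H
  simp only [PP] at H ⊢
  by_cases h1 : e' + a' + h' + b' = e + a + h + b
  · obtain rfl : e' = e := by omega
    obtain rfl : a' = a := by omega
    obtain rfl : h' = h := by omega
    obtain rfl : b' = b := by omega
    exact H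
  · rcases H with H | H | ⟨H, H' | H' | H'⟩
    · left; omega
    · right; left; omega
    · right; left; omega
    · right; left; omega
    · right; left; omega

lemma l5 (p r j : ℕ) (hp : 1 ≤ p) (hr : 1 ≤ r) (h3 : 3 ≤ p + r) (hj : j + 2 ≤ p + r) :
    Loc p r (PP p r (j + 1)) (PP p r j) := by
  intro e a h b he ha hh hb
  simp only [PP, up, dn]
  interval_cases e <;> interval_cases h <;> constructor <;> intro H <;> grind (splits := 60)

lemma dn0 (p r : ℕ) : Down p r D0 := by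
  intro e a h b e' a' h' b' _ _ _ _ _ _ _ _; simp only [D0]; omega
lemma dn1 (p r : ℕ) : Down p r D1 := by
  intro e a h b e' a' h' b' _ _ _ _ _ _ _ _; simp only [D1]; omega
lemma dn2 (p r : ℕ) : Down p r D2 := by
  intro e a h b e' a' h' b' _ _ _ _ _ _ _ _; simp only [D2]; omega
lemma dn3 (p r : ℕ) : Down p r (D3 p r) := by
  intro e a h b e' a' h' b' _ _ _ _ _ _ _ _; simp only [D3]; omega
lemma dn4 (p r : ℕ) : Down p r (D4 p r) := by
  intro e a h b e' a' h' b' _ _ _ _ _ _ _ _; simp only [D4]; omega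

lemma side {p r : ℕ} {F T : Finset (W p r)} (hT : 2 ≤ T.card) (h : F ⊆ T) (hF : F.card ≤ 2)
    (hA : ∀ u ∈ T, ∀ v ∈ T, u ≠ v → Adj u v) : F ∈ dumbbell (p + 1) (r + 1) := by
  obtain ⟨G, h1, h2, h3⟩ := exists_subsuperset_card_eq h hF hT
  obtain ⟨u, v, huv, rfl⟩ := card_eq_two.1 h3
  exact ⟨u, v, hA u (h2 (by simp)) v (h2 (by simp)) huv, h1⟩

lemma db (p r : ℕ) (hp : 1 ≤ p) (hr : 1 ≤ r) : dumbbell (p + 1) (r + 1) = S p r D0 := by
  ext F
  constructor
  · rintro ⟨u, v, huv, hF⟩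
    refine down_mem (dn0 p r) hF ?_
    have hne : u ∉ ({v} : Finset (W p r)) := by
      rw [mem_singleton]
      rintro rfl
      rcases u with i | i <;> exact huv rfl
    have e : ∀ i, cnt ({u, v} : Finset (W p r)) i =
        (if c v = i then 1 else 0) + if c u = i then 1 else 0 := by
      intro i
      rw [cnt_insert hne]
      congr 1
      have := cnt_insert (F := (∅ : Finset (W p r))) (v := v) (by simp) i
      simpa [cnt] using this
    simp only [S, Set.mem_ofPred_eq, e, D0]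
    rcases u with i | i <;> rcases v with k | k <;> simp only [Adj] at huv <;> simp only [c] <;>
      by_cases h1 : i.val = 0 <;> by_cases h2 : k.val = 0 <;> simp_all
  · rintro ⟨h1, h2⟩
    have hc2 : F.card ≤ 2 := by rw [card_eq]; exact h1
    have z : ∀ v ∈ F, 0 < cnt F (c v) := fun v hv =>
      card_pos.2 ⟨v, mem_filter.2 ⟨hv, rfl⟩⟩
    rcases h2 with h2 | h2 | h2
    · refine side (T := univ.map ⟨Sum.inr, Sum.inr_injective⟩) (by simp; omega) ?_ hc2 ?_
      · intro v hv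
        have := z v hv
        rcases v with i | i
        · simp only [c] at this
          split_ifs at this <;> omega
        · simp
      · intro u hu v hv huv
        obtain ⟨i, -, rfl⟩ := mem_map.1 hu
        obtain ⟨k, -, rfl⟩ := mem_map.1 hv
        exact fun h => huv (by rw [h])
    · refine side (T := univ.map ⟨Sum.inl, Sum.inl_injective⟩) (by simp; omega) ?_ hc2 ?_
      · intro v hv
        have := z v hv
        rcases v with i | i
        · simp
        · simp only [c] at this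
          split_ifs at this <;> omega
      · intro u hu v hv huv
        obtain ⟨i, -, rfl⟩ := mem_map.1 hu
        obtain ⟨k, -, rfl⟩ := mem_map.1 hv
        exact fun h => huv (by rw [h])
    · refine ⟨.inl 0, .inr 0, ⟨rfl, rfl⟩, fun v hv => ?_⟩
      have := z v hv
      rcases v with i | i <;> simp only [c] at this <;> split_ifs at this with h
      · simp [Fin.ext_iff, h]
      · omega
      · simp [Fin.ext_iff, h]
      · omega

lemma exF (p r : ℕ) (k : ℕ) : ∀ e a h b, e + a + h + b = k → e ≤ 1 → a ≤ p → h ≤ 1 → b ≤ r →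
    ∃ F : Finset (W p r), cnt F 0 = e ∧ cnt F 1 = a ∧ cnt F 2 = h ∧ cnt F 3 = b := by
  obtain ⟨h0, h1, h2, h3⟩ := cnt_univ p r
  induction k with
  | zero => intro e a h b _ _ _ _ _; exact ⟨∅, by simp [cnt]; omega⟩
  | succ k ih =>
    intro e a h b hs _ _ _ _
    have : 0 < e ∨ 0 < a ∨ 0 < h ∨ 0 < b := by omega
    rcases this with t | t | t | t
    · obtain ⟨F, hF⟩ := ih (e - 1) a h b (by omega) (by omega) ‹_› ‹_› ‹_›
      obtain ⟨v, hv, q⟩ := ex_out (F := F) (i := 0) (by omega)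
      exact ⟨insert v F, by simp [cnt_insert hv, q]; omega⟩
    · obtain ⟨F, hF⟩ := ih e (a - 1) h b (by omega) ‹_› (by omega) ‹_› ‹_›
      obtain ⟨v, hv, q⟩ := ex_out (F := F) (i := 1) (by omega)
      exact ⟨insert v F, by simp [cnt_insert hv, q]; omega⟩
    · obtain ⟨F, hF⟩ := ih e a (h - 1) b (by omega) ‹_› ‹_› (by omega) ‹_›
      obtain ⟨v, hv, q⟩ := ex_out (F := F) (i := 2) (by omega)
      exact ⟨insert v F, by simp [cnt_insert hv, q]; omega⟩
    · obtain ⟨F, hF⟩ := ih e a h (b - 1) (by omega) ‹_› ‹_› ‹_› (by omega)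
      obtain ⟨v, hv, q⟩ := ex_out (F := F) (i := 3) (by omega)
      exact ⟨insert v F, by simp [cnt_insert hv, q]; omega⟩

lemma no3 {p r : ℕ} {P : Pr} (e a h b : ℕ) (hs : 3 ≤ e + a + h + b) (he : e ≤ 1) (ha : a ≤ p)
    (hh : h ≤ 1) (hb : b ≤ r) (hP : P e a h b) : ¬ Iso (S p r P) (S p r D0) := by
  rintro ⟨π, hπ⟩
  obtain ⟨F, h0, h1, h2, h3⟩ := exF p r _ e a h b rfl he ha hh hb
  have h4 : F ∈ S p r P := by simpa only [S, Set.mem_ofPred_eq, h0, h1, h2, h3] using hP
  have h5 := ((hπ F).1 h4).1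
  rw [← card_eq, card_map, card_eq] at h5
  omega

lemma no1 {p r : ℕ} (e a h b : ℕ) (hs : e + a + h + b = 3) (he : e ≤ 1) (ha : a ≤ p)
    (hh : h ≤ 1) (hb : b ≤ r) (hP : dn D0 e a h b) : ¬ Iso (S p r D1) (S p r D0) := by
  rintro ⟨π, hπ⟩
  obtain ⟨T, h0, h1, h2, h3⟩ := exF p r _ e a h b rfl he ha hh hb
  have h4 : T ∈ S p r (dn D0) := by simpa only [S, Set.mem_ofPred_eq, h0, h1, h2, h3] using hP
  have hT : (T.map π.symm.toEmbedding).map π.toEmbedding = T := by
    ext x; simp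
  have h5 : T.map π.symm.toEmbedding ∈ S p r (dn D1) := by
    rw [← er_iff]
    intro v hv
    rw [hπ, map_erase, hT]
    refine (er_iff D0 T).2 h4 _ ?_
    rw [← hT]
    exact mem_map_of_mem _ hv
  have h6 : (T.map π.symm.toEmbedding).card = 3 := by rw [card_map, card_eq]; omega
  rw [card_eq] at h6
  have h7 := cnt_le (T.map π.symm.toEmbedding)
  simp only [S, Set.mem_ofPred_eq, dn, D1] at h5
  omega

/-- The NF-number of the dumbbell graph `B_{n,m}` is `n+m+2` for `n,m ≥ 2`, `(n,m) ≠ (2,2)`. -/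
theorem result (n m : ℕ) (hn : 2 ≤ n) (hm : 2 ≤ m) (h22 : ¬ (n = 2 ∧ m = 2)) :
    IsLeast {q : ℕ | 0 < q ∧ Iso (nf^[q] (dumbbell n m)) (dumbbell n m)} (n + m + 2) := by
  obtain ⟨p, rfl⟩ : ∃ p, n = p + 1 := ⟨n - 1, by omega⟩
  obtain ⟨r, rfl⟩ : ∃ r, m = r + 1 := ⟨m - 1, by omega⟩
  have hp : 1 ≤ p := by omega
  have hr : 1 ≤ r := by omega
  have h3 : 3 ≤ p + r := by omega
  rw [db p r hp hr]
  have x1 : nf^[1] (S p r D0) = S p r D1 := key (dn0 p r) (dn1 p r) (l0 p r hp hr)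
  have x2 : nf^[2] (S p r D0) = S p r D2 := by
    rw [Function.iterate_succ_apply', x1]; exact key (dn1 p r) (dn2 p r) (l1 p r hp hr)
  have x3 : nf^[3] (S p r D0) = S p r (D3 p r) := by
    rw [Function.iterate_succ_apply', x2]; exact key (dn2 p r) (dn3 p r) (l2 p r hp hr)
  have x4 : nf^[4] (S p r D0) = S p r (D4 p r) := by
    rw [Function.iterate_succ_apply', x3]; exact key (dn3 p r) (dn4 p r) (l3 p r hp hr)
  have x5 : ∀ i j, i + j + 1 = p + r → nf^[i + 5] (S p r D0) = S p r (PP p r j) := by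
    intro i
    induction i with
    | zero =>
      intro j hj
      rw [show 0 + 5 = 4 + 1 from rfl, Function.iterate_succ_apply', x4]
      exact key (dn4 p r) (dP p r j hp hr) (l4 p r j hp hr h3 (by omega) (by omega))
    | succ i ih =>
      intro j hj
      rw [show i + 1 + 5 = i + 5 + 1 from rfl, Function.iterate_succ_apply',
        ih (j + 1) (by omega)]
      exact key (dP p r _ hp hr) (dP p r j hp hr) (l5 p r j hp hr h3 (by omega))
  constructor
  · refine ⟨by omega, Equiv.refl _, fun F => ?_⟩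
    rw [show p + 1 + (r + 1) + 2 = p + r - 1 + 5 by omega, x5 _ 0 (by omega)]
    have := cnt_le F
    rw [show F.map (Equiv.refl _).toEmbedding = F by ext x; simp]
    simp only [S, Set.mem_ofPred_eq, PP, D0]
    omega
  · rintro q ⟨hq, hI⟩
    by_contra hlt
    have hs : 2 ≤ p ∨ 2 ≤ r := by omega
    have : q = 1 ∨ q = 2 ∨ q = 3 ∨ q = 4 ∨ ∃ i, q = i + 5 := by
      by_cases h : 5 ≤ q
      · exact Or.inr (Or.inr (Or.inr (Or.inr ⟨q - 5, by omega⟩)))
      · omega
    rcases this with rfl | rfl | rfl | rfl | ⟨i, rfl⟩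
    · rw [x1] at hI
      rcases hs with hs | hs
      · exact no1 1 2 0 0 rfl le_rfl hs (by omega) (by omega) (by simp [dn, D0]) hI
      · exact no1 0 0 1 2 rfl (by omega) (by omega) le_rfl hs (by simp [dn, D0]) hI
    · rw [x2] at hI
      rcases hs with hs | hs
      · exact no3 1 2 0 0 le_rfl le_rfl hs (by omega) (by omega) (by simp [D2]) hI
      · exact no3 0 0 1 2 le_rfl (by omega) (by omega) le_rfl hs (by simp [D2]) hI
    · rw [x3] at hI
      exact no3 0 p 0 r (by omega) (by omega) le_rfl (by omega) le_rfl (by simp [D3]) hI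
    · rw [x4] at hI
      exact no3 1 (p - 1) 1 (r - 1) (by omega) le_rfl (by omega) le_rfl (by omega)
        (by simp only [D4]; omega) hI
    · rw [x5 i (p + r - 1 - i) (by omega)] at hI
      by_cases h1 : p + r - 1 - i = 1
      · rcases hs with hs | hs
        · exact no3 1 2 0 0 le_rfl le_rfl hs (by omega) (by omega) (by simp [PP, h1]) hI
        · exact no3 0 0 1 2 le_rfl (by omega) (by omega) le_rfl hs (by simp [PP, h1]) hI
      · rcases hs with hs | hs
        · exact no3 0 2 0 1 le_rfl (by omega) hs (by omega) hr (by simp only [PP]; omega) hI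
        · exact no3 0 1 0 2 le_rfl (by omega) hp (by omega) hs (by simp only [PP]; omega) hI

end Pool.Agent.Results.MP_0a7d83_co.All
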